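import Pool.Agent.Helper34.ThetaMap.Final

/-!
# The second-order theta constant map is not an embedding for `g ≥ 4`

For every `g ≥ 4` the map `Th : 𝒜_g(2,4) → ℙ^(2^g-1)` is not an embedding: there is a point of
`𝒜_g(2,4)` near which `Th` is not an isomorphism of complex analytic spaces onto its image.

Idea of the proof.  Near the class of a block diagonal matrix `τ₀` with two `2 × 2` blocks close to
`i·1` (and all other blocks equal to `i`), the group `Γ_g(2,4)` acts through sign changes, and the
coordinates of the two blocks (6 of them) together with the products of any two of the four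
coordinates of the off-diagonal block (10 of them) are holomorphic functions on `𝒜_g(2,4)` which
are independent modulo the square of the maximal ideal.  On the matrices which differ from `τ₀`
only in the upper left `4 × 4` block, the theta vector moves in a linear space of dimension `16`,
hence `Th` moves in a projective space of dimension `15 < 16`; so not all of these functions are
induced by holomorphic functions on the projective space.
-/

open Pool.Agent.Helper34.ThetaMap Filter Topology

namespace Pool.Agent.Results.MP_2bf81a_ag.NotEmbedding

/-- For every `g ≥ 4` the second-order theta constant map `Th : 𝒜_g(2,4) → ℙ^(2^g-1)` is not an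
embedding. More precisely there is a point of `𝒜_g(2,4)` near which `Th` is not an isomorphism
onto its image, because some holomorphic function on a neighbourhood of this point does not
coincide, near this point, with the pull-back of a holomorphic function defined on a neighbourhood
of the image point in `ℙ^(2^g-1)`. -/
theorem result (g : ℕ) (hg : 4 ≤ g) :
    ¬ IsEmbedding g ∧ ∃ τ₀ ∈ siegel g, ¬ IsIsoOntoImageNear g τ₀ ∧
      ∃ (U : Set (SymMat g)) (f : SymMat g → ℂ), IsOpenA g U ∧ τ₀ ∈ U ∧ IsHolA g U f ∧
        ∀ (W : Set ((Fin g → Fin 2) → ℂ)) (F : ((Fin g → Fin 2) → ℂ) → ℂ),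
          IsOpenP W → thetaVec τ₀ ∈ W → IsHolP W F → ¬ ∀ᶠ τ in 𝓝 τ₀, f τ = F (thetaVec τ) := by
  obtain ⟨h, rfl⟩ := Nat.exists_eq_add_of_le hg
  exact ⟨not_isEmbedding, tau0 h, tau0_mem, not_isIsoOntoImageNear, exists_function⟩

end Pool.Agent.Results.MP_2bf81a_ag.NotEmbedding
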